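import Pool.Agent.W97.KE.Stm
import Pool.Agent.W370.KE.Z

/-!
Reduction of the points of `y² = x³ - 11x² - x`.
-/

set_option autoImplicit false

open scoped Classical

namespace Pool.Agent.W370.KE

open WeierstrassCurve Pool.Agent.H901R3.MS
open Pool.Agent.W97.V20 (E4)

/-- points of `E4` -/
abbrev PE (F : Type) [Field F] : Type := Pool.Agent.W97.KE.Pt E4 F

/-- the short form -/
abbrev PS (F : Type) [Field F] : Type := Pt (((-3348 : ℤ) : ℤ) : F) (((-74547 : ℤ) : ℤ) : F)

section
variable {F : Type} [Field F] {x y x₁ y₁ x₂ y₂ : F}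

theorem e4_a1 : (E4.baseChange F).a₁ = 0 := by simp [E4, WeierstrassCurve.baseChange]
theorem e4_a2 : (E4.baseChange F).a₂ = -11 := by simp [E4, WeierstrassCurve.baseChange]
theorem e4_a3 : (E4.baseChange F).a₃ = 0 := by simp [E4, WeierstrassCurve.baseChange]
theorem e4_a4 : (E4.baseChange F).a₄ = -1 := by simp [E4, WeierstrassCurve.baseChange]
theorem e4_a6 : (E4.baseChange F).a₆ = 0 := by simp [E4, WeierstrassCurve.baseChange]

theorem e4_negY : (E4.baseChange F).toAffine.negY x y = -y := by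
  rw [Affine.negY, e4_a1, e4_a3]; ring

theorem e4_eq : (E4.baseChange F).toAffine.Equation x y ↔ y ^ 2 = x ^ 3 - 11 * x ^ 2 - x := by
  rw [Affine.equation_iff, e4_a1, e4_a2, e4_a3, e4_a4, e4_a6]
  constructor
  · intro h; linear_combination h
  · intro h; linear_combination h

theorem e4_ns (h10 : (10 : F) ≠ 0) :
    (E4.baseChange F).toAffine.Nonsingular x y ↔ y ^ 2 = x ^ 3 - 11 * x ^ 2 - x := by
  rw [Affine.nonsingular_iff, e4_eq, e4_a1, e4_a2, e4_a3, e4_a4]
  constructor
  · exact fun h => h.1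
  · intro he
    refine ⟨he, ?_⟩
    by_contra hc
    push Not at hc
    obtain ⟨h1, h2⟩ := hc
    have h2y : 2 * y = 0 := by linear_combination h2
    have h20 : (2 : F) ≠ 0 := by
      intro h; apply h10
      linear_combination 5 * h
    have h50 : (5 : F) ≠ 0 := by
      intro h; apply h10
      linear_combination 2 * h
    have hy : y = 0 := by
      rcases mul_eq_zero.1 h2y with h | h
      · exact absurd h h20
      · exact h
    rw [hy] at he
    have hq : 3 * x ^ 2 - 22 * x - 1 = 0 := by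
      rw [hy] at h1
      linear_combination -h1
    have hx : x * (x ^ 2 - 11 * x - 1) = 0 := by linear_combination -he
    rcases mul_eq_zero.1 hx with h | h
    · rw [h] at hq
      apply one_ne_zero (α := F)
      linear_combination -hq
    · have h125 : (5 : F) ^ 3 = 0 := by
        linear_combination 121 * h - (11 * x - 123) * (hq - 3 * h)
      exact h50 (pow_eq_zero_iff (by norm_num) |>.1 h125)

/-- sum of two points with `x₁ ≠ x₂` -/
theorem e4_add_ne (h₁ : (E4.baseChange F).toAffine.Nonsingular x₁ y₁)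
    (h₂ : (E4.baseChange F).toAffine.Nonsingular x₂ y₂) (hx : x₁ ≠ x₂) (l x₃ y₃ : F)
    (hl : l = (y₁ - y₂) / (x₁ - x₂)) (hx₃ : x₃ = l ^ 2 + 11 - x₁ - x₂)
    (hy₃ : y₃ = -(l * (x₃ - x₁) + y₁)) :
    ∃ h₃ : (E4.baseChange F).toAffine.Nonsingular x₃ y₃,
      (Affine.Point.some x₁ y₁ h₁ + Affine.Point.some x₂ y₂ h₂ : PE F) =
        Affine.Point.some x₃ y₃ h₃ := by
  have hs : (E4.baseChange F).toAffine.slope x₁ x₂ y₁ y₂ = l := by
    rw [Affine.slope_of_X_ne hx, hl]
  have hX : (E4.baseChange F).toAffine.addX x₁ x₂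
      ((E4.baseChange F).toAffine.slope x₁ x₂ y₁ y₂) = x₃ := by
    rw [hs, hx₃, Affine.addX, e4_a1, e4_a2]; ring
  have hY : (E4.baseChange F).toAffine.addY x₁ x₂ y₁
      ((E4.baseChange F).toAffine.slope x₁ x₂ y₁ y₂) = y₃ := by
    rw [Affine.addY, Affine.negAddY, hX, hs, hy₃, e4_negY]
  have hns := Affine.nonsingular_add h₁ h₂ (fun hxy => hx hxy.1)
  rw [hX, hY] at hns
  refine ⟨hns, ?_⟩
  rw [Affine.Point.add_of_X_ne hx]
  congr 1

/-- doubling -/
theorem e4_add_dbl (h₁ : (E4.baseChange F).toAffine.Nonsingular x₁ y₁)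
    (h₂ : (E4.baseChange F).toAffine.Nonsingular x₂ y₂) (hx : x₁ = x₂) (hy : y₁ ≠ -y₂)
    (l x₃ y₃ : F)
    (hl : l = (3 * x₁ ^ 2 - 22 * x₁ - 1) / (2 * y₁)) (hx₃ : x₃ = l ^ 2 + 11 - x₁ - x₂)
    (hy₃ : y₃ = -(l * (x₃ - x₁) + y₁)) :
    ∃ h₃ : (E4.baseChange F).toAffine.Nonsingular x₃ y₃,
      (Affine.Point.some x₁ y₁ h₁ + Affine.Point.some x₂ y₂ h₂ : PE F) =
        Affine.Point.some x₃ y₃ h₃ := by
  have hy' : y₁ ≠ (E4.baseChange F).toAffine.negY x₂ y₂ := by
    rw [e4_negY]; exact hy
  have hs : (E4.baseChange F).toAffine.slope x₁ x₂ y₁ y₂ = l := by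
    rw [Affine.slope_of_Y_ne hx hy', hl, e4_negY, e4_a1, e4_a2, e4_a4]
    congr 1
    · ring
    · ring
  have hX : (E4.baseChange F).toAffine.addX x₁ x₂
      ((E4.baseChange F).toAffine.slope x₁ x₂ y₁ y₂) = x₃ := by
    rw [hs, hx₃, Affine.addX, e4_a1, e4_a2]; ring
  have hY : (E4.baseChange F).toAffine.addY x₁ x₂ y₁
      ((E4.baseChange F).toAffine.slope x₁ x₂ y₁ y₂) = y₃ := by
    rw [Affine.addY, Affine.negAddY, hX, hs, hy₃, e4_negY]
  have hns := Affine.nonsingular_add h₁ h₂ (fun hxy => hy' hxy.2)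
  rw [hX, hY] at hns
  refine ⟨hns, ?_⟩
  rw [Affine.Point.add_of_Y_ne hy']
  congr 1

/-- opposite points -/
theorem e4_add_opp (h₁ : (E4.baseChange F).toAffine.Nonsingular x₁ y₁)
    (h₂ : (E4.baseChange F).toAffine.Nonsingular x₂ y₂) (hx : x₁ = x₂) (hy : y₁ = -y₂) :
    (Affine.Point.some x₁ y₁ h₁ + Affine.Point.some x₂ y₂ h₂ : PE F) = 0 := by
  apply Affine.Point.add_of_Y_eq hx
  rw [e4_negY]; exact hy

/-- coordinates of the short form -/
theorem to_short (hD : Disc (((-3348 : ℤ) : ℤ) : F) (((-74547 : ℤ) : ℤ) : F))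
    (h : (E4.baseChange F).toAffine.Nonsingular x y) :
    (CV (((-3348 : ℤ) : ℤ) : F) (((-74547 : ℤ) : ℤ) : F)).toAffine.Nonsingular
      (9 * x - 33) (27 * y) := by
  rw [nonsingular_iff hD]
  have he := e4_eq.1 h.1
  unfold Eqn
  push_cast
  linear_combination 729 * he

theorem of_short (h3 : (3 : F) ≠ 0) (h10 : (10 : F) ≠ 0)
    (h : (CV (((-3348 : ℤ) : ℤ) : F) (((-74547 : ℤ) : ℤ) : F)).toAffine.Nonsingular x y) :
    (E4.baseChange F).toAffine.Nonsingular ((x + 33) / 9) (y / 27) := by
  rw [e4_ns h10]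
  have he := eqn_of h
  unfold Eqn at he
  push_cast at he
  have h9 : (9 : F) ≠ 0 := by
    intro h; apply h3
    have : (3 : F) ^ 2 = 0 := by linear_combination h
    exact pow_eq_zero_iff (by norm_num) |>.1 this
  have h27 : (27 : F) ≠ 0 := by
    intro h; apply h3
    have : (3 : F) ^ 3 = 0 := by linear_combination h
    exact pow_eq_zero_iff (by norm_num) |>.1 this
  have h729 : (729 : F) ≠ 0 := by
    intro h; apply h3
    have : (3 : F) ^ 6 = 0 := by linear_combination h
    exact pow_eq_zero_iff (by norm_num) |>.1 this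
  apply mul_left_cancel₀ h729
  have e1 : (729 : F) * (y / 27) ^ 2 = y ^ 2 := by
    have : y = 27 * (y / 27) := by field_simp
    generalize y / 27 = q at *
    rw [this]; ring
  have e2 : x = 9 * ((x + 33) / 9) - 33 := by field_simp; ring
  rw [e1, he]
  generalize (x + 33) / 9 = q at *
  rw [e2]
  ring

/-- the isomorphism with the short form -/
noncomputable def TT (hD : Disc (((-3348 : ℤ) : ℤ) : F) (((-74547 : ℤ) : ℤ) : F))
    (h3 : (3 : F) ≠ 0) (h10 : (10 : F) ≠ 0) : PE F ≃+ PS F where
  toFun P := match P with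
    | Affine.Point.zero => Affine.Point.zero
    | Affine.Point.some _ _ h => Affine.Point.some _ _ (to_short hD h)
  invFun P := match P with
    | Affine.Point.zero => Affine.Point.zero
    | Affine.Point.some _ _ h => Affine.Point.some _ _ (of_short h3 h10 h)
  left_inv := by
    rintro (_ | ⟨x, y, h⟩)
    · rfl
    · simp only [Affine.Point.some.injEq]
      have h9 : (9 : F) ≠ 0 := by
        intro h; apply h3
        have : (3 : F) ^ 2 = 0 := by linear_combination h
        exact pow_eq_zero_iff (by norm_num) |>.1 this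
      have h27 : (27 : F) ≠ 0 := by
        intro h; apply h3
        have : (3 : F) ^ 3 = 0 := by linear_combination h
        exact pow_eq_zero_iff (by norm_num) |>.1 this
      constructor
      · field_simp; ring
      · field_simp
  right_inv := by
    rintro (_ | ⟨x, y, h⟩)
    · rfl
    · simp only [Affine.Point.some.injEq]
      have h9 : (9 : F) ≠ 0 := by
        intro h; apply h3
        have : (3 : F) ^ 2 = 0 := by linear_combination h
        exact pow_eq_zero_iff (by norm_num) |>.1 this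
      have h27 : (27 : F) ≠ 0 := by
        intro h; apply h3
        have : (3 : F) ^ 3 = 0 := by linear_combination h
        exact pow_eq_zero_iff (by norm_num) |>.1 this
      constructor
      · field_simp; ring
      · field_simp
  map_add' := by
    rintro (_ | ⟨x₁, y₁, h₁⟩) (_ | ⟨x₂, y₂, h₂⟩)
    · rfl
    · rfl
    · rfl
    · have h9 : (9 : F) ≠ 0 := by
        intro h; apply h3
        have : (3 : F) ^ 2 = 0 := by linear_combination h
        exact pow_eq_zero_iff (by norm_num) |>.1 this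
      have h27 : (27 : F) ≠ 0 := by
        intro h; apply h3
        have : (3 : F) ^ 3 = 0 := by linear_combination h
        exact pow_eq_zero_iff (by norm_num) |>.1 this
      by_cases hx : x₁ = x₂
      · by_cases hy : y₁ = -y₂
        · rw [e4_add_opp h₁ h₂ hx hy]
          change (0 : PS F) = Affine.Point.some _ _ (to_short hD h₁) +
            Affine.Point.some _ _ (to_short hD h₂)
          rw [add_opp _ _ (by rw [hx]) (by rw [hy]; ring)]
        · obtain ⟨h₃, e3⟩ := e4_add_dbl h₁ h₂ hx hy _ _ _ rfl rfl rfl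
          have hY : (27 * y₁ : F) ≠ -(27 * y₂) := by
            intro h
            apply hy
            apply mul_left_cancel₀ h27
            linear_combination h
          have hyy : y₁ = y₂ := by
            have E1 := e4_eq.1 h₁.1
            have E2 := e4_eq.1 h₂.1
            rw [hx] at E1
            have h3 : (y₁ - y₂) * (y₁ + y₂) = 0 := by linear_combination E1 - E2
            rcases mul_eq_zero.1 h3 with h4 | h4
            · exact sub_eq_zero.1 h4
            · exact absurd (eq_neg_of_add_eq_zero_left h4) hy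
          have h2y : 2 * y₁ ≠ 0 := by
            intro h4
            apply hy
            rw [← hyy]
            linear_combination h4
          obtain ⟨h₄, e4⟩ := add_dbl (to_short hD h₁) (to_short hD h₂) (by rw [hx]) hY _ _ _
            rfl rfl rfl
          rw [e3]
          change (Affine.Point.some _ _ (to_short hD h₃) : PS F) =
            Affine.Point.some _ _ (to_short hD h₁) + Affine.Point.some _ _ (to_short hD h₂)
          rw [e4]
          have hsl : (3 * (9 * x₁ - 33) ^ 2 + (((-3348 : ℤ) : ℤ) : F)) / (2 * (27 * y₁)) =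
              3 * ((3 * x₁ ^ 2 - 22 * x₁ - 1) / (2 * y₁)) := by
            have h2y27 : 2 * (27 * y₁) ≠ 0 := by
              have : 2 * (27 * y₁) = 27 * (2 * y₁) := by ring
              rw [this]
              exact mul_ne_zero h27 h2y
            rw [div_eq_iff h2y27]
            have : 3 * ((3 * x₁ ^ 2 - 22 * x₁ - 1) / (2 * y₁)) * (2 * (27 * y₁)) =
                81 * (((3 * x₁ ^ 2 - 22 * x₁ - 1) / (2 * y₁)) * (2 * y₁)) := by ring
            rw [this, div_mul_cancel₀ _ h2y]
            push_cast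
            ring
          simp only [Affine.Point.some.injEq, hsl]
          generalize (3 * x₁ ^ 2 - 22 * x₁ - 1) / (2 * y₁) = l
          constructor <;> ring
      · obtain ⟨h₃, e3⟩ := e4_add_ne h₁ h₂ hx _ _ _ rfl rfl rfl
        have hX : (9 * x₁ - 33 : F) ≠ 9 * x₂ - 33 := by
          intro h
          apply hx
          apply mul_left_cancel₀ h9
          linear_combination h
        obtain ⟨h₄, e4⟩ := add_ne (to_short hD h₁) (to_short hD h₂) hX _ _ _ rfl rfl rfl
        rw [e3]
        change (Affine.Point.some _ _ (to_short hD h₃) : PS F) =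
          Affine.Point.some _ _ (to_short hD h₁) + Affine.Point.some _ _ (to_short hD h₂)
        rw [e4]
        have hsub : x₁ - x₂ ≠ 0 := sub_ne_zero.2 hx
        have hsl : (27 * y₁ - 27 * y₂) / (9 * x₁ - 33 - (9 * x₂ - 33)) =
            3 * ((y₁ - y₂) / (x₁ - x₂)) := by
          have h9s : 9 * x₁ - 33 - (9 * x₂ - 33) ≠ 0 := sub_ne_zero.2 hX
          rw [div_eq_iff h9s]
          have : 3 * ((y₁ - y₂) / (x₁ - x₂)) * (9 * x₁ - 33 - (9 * x₂ - 33)) =
              27 * (((y₁ - y₂) / (x₁ - x₂)) * (x₁ - x₂)) := by ring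
          rw [this, div_mul_cancel₀ _ hsub]
          ring
        simp only [Affine.Point.some.injEq, hsl]
        generalize (y₁ - y₂) / (x₁ - x₂) = l
        constructor <;> ring

end

section red
variable {K k : Type} [Field K] [Field k] (v : Place K k)

theorem r_nat_ne {n : ℕ} (h : (n : k) ≠ 0) : v.r (n : K) ≠ 0 := by
  rw [v.r_nat]; exact h

/-- the reduction map of `E4` in coordinates -/
theorem exists_redE (hDK : Disc (((-3348 : ℤ) : ℤ) : K) (((-74547 : ℤ) : ℤ) : K))
    (hDk : Disc (((-3348 : ℤ) : ℤ) : k) (((-74547 : ℤ) : ℤ) : k))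
    (h3K : (3 : K) ≠ 0) (h10K : (10 : K) ≠ 0) (h3k : (3 : k) ≠ 0) (h10k : (10 : k) ≠ 0) :
    ∃ red : PE K →+ PE k,
      (∀ (x y : K) (h : (E4.baseChange K).toAffine.Nonsingular x y), x ∉ v.A →
        red (Affine.Point.some x y h) = 0) ∧
      (∀ (x y : K) (h : (E4.baseChange K).toAffine.Nonsingular x y), x ∈ v.A →
        ∃ g : (E4.baseChange k).toAffine.Nonsingular (v.r x) (v.r y),
          red (Affine.Point.some x y h) = Affine.Point.some _ _ g) ∧
      (∀ n : ℕ, (n : k) ≠ 0 → ∀ P, n • P = 0 → red P = 0 → P = 0) := by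
  obtain ⟨redS, hred⟩ := t_R6 t_R1 t_R2 t_R3 t_R4 t_R5 K k v (-3348) (-74547) hDk
  have h9k : ((9 : ℕ) : k) ≠ 0 := by
    intro h; apply h3k
    have : (3 : k) ^ 2 = 0 := by
      push_cast at h
      linear_combination h
    exact pow_eq_zero_iff (by norm_num) |>.1 this
  have h27k : ((27 : ℕ) : k) ≠ 0 := by
    intro h; apply h3k
    have : (3 : k) ^ 3 = 0 := by
      push_cast at h
      linear_combination h
    exact pow_eq_zero_iff (by norm_num) |>.1 this
  have r9 := r_nat_ne (K := K) v h9k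
  have r27 := r_nat_ne (K := K) v h27k
  have m33 : (33 : K) ∈ v.A := by exact_mod_cast v.nat_mem 33
  have m9 : (9 : K) ∈ v.A := by exact_mod_cast v.nat_mem 9
  have m27 : (27 : K) ∈ v.A := by exact_mod_cast v.nat_mem 27
  have v9 : v.r (9 : K) = 9 := by exact_mod_cast v.r_nat 9
  have v27 : v.r (27 : K) = 27 := by exact_mod_cast v.r_nat 27
  have v33 : v.r (33 : K) = 33 := by exact_mod_cast v.r_nat 33
  push_cast at r9 r27 h9k h27k
  refine ⟨((TT hDk h3k h10k).symm.toAddMonoidHom.comp redS).comp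
    (TT hDK h3K h10K).toAddMonoidHom, ?_, ?_, ?_⟩
  · intro x y h hx
    have hX : 9 * x - 33 ∉ v.A := by
      intro hX
      apply hx
      have e : x = ((9 * x - 33) + 33) / 9 := by
        have h9K : (9 : K) ≠ 0 := by
          intro h; apply h3K
          have : (3 : K) ^ 2 = 0 := by linear_combination h
          exact pow_eq_zero_iff (by norm_num) |>.1 this
        field_simp
        ring
      rw [e]
      exact v.div_mem (v.A.add_mem hX m33) r9
    change (TT hDk h3k h10k).symm (redS (Affine.Point.some _ _ (to_short hDK h))) = 0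
    rw [hred.2.1 _ _ (to_short hDK h) hX]
    exact map_zero _
  · intro x y h hx
    have hX : 9 * x - 33 ∈ v.A := v.A.sub_mem (v.A.mul_mem m9 hx) m33
    obtain ⟨hY, g, hg⟩ := hred.2.2 _ _ (to_short hDK h) hX
    have h27K : (27 : K) ≠ 0 := by
      intro h; apply h3K
      have : (3 : K) ^ 3 = 0 := by linear_combination h
      exact pow_eq_zero_iff (by norm_num) |>.1 this
    have hy : y ∈ v.A := by
      have e : y = (27 * y) / 27 := by field_simp
      rw [e]
      exact v.div_mem hY r27
    have rX : v.r (9 * x - 33) = 9 * v.r x - 33 := by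
      rw [v.r_sub (v.A.mul_mem m9 hx) m33, v.r_mul m9 hx, v9, v33]
    have rY : v.r (27 * y) = 27 * v.r y := by
      rw [v.r_mul m27 hy, v27]
    have e1 : (v.r (9 * x - 33) + 33) / 9 = v.r x := by
      rw [rX]
      field_simp
      ring
    have e2 : v.r (27 * y) / 27 = v.r y := by
      rw [rY]
      field_simp
    have g' := of_short h3k h10k g
    have g'' : (E4.baseChange k).toAffine.Nonsingular (v.r x) (v.r y) := by
      rw [e1, e2] at g'
      exact g'
    refine ⟨g'', ?_⟩
    change (TT hDk h3k h10k).symm (redS (Affine.Point.some _ _ (to_short hDK h))) = _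
    rw [hg]
    change (Affine.Point.some _ _ (of_short h3k h10k g) : PE k) = _
    simp only [Affine.Point.some.injEq]
    exact ⟨e1, e2⟩
  · intro n hn P hP h0
    have h1 : redS (TT hDK h3K h10K P) = 0 := by
      apply (TT hDk h3k h10k).symm.injective
      rw [map_zero]
      exact h0
    have h2 : n • TT hDK h3K h10K P = 0 := by
      rw [← map_nsmul, hP, map_zero]
    have h3 := no_tors v (-3348) (-74547) redS hred n hn _ h2 h1
    apply (TT hDK h3K h10K).injective
    rw [h3, map_zero]

theorem e4_map (h10 : (10 : K) ≠ 0) (τ : K →+* K) {x y : K}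
    (h : (E4.baseChange K).toAffine.Nonsingular x y) :
    (E4.baseChange K).toAffine.Nonsingular (τ x) (τ y) := by
  have h1 := (e4_ns h10).1 h
  rw [e4_ns h10]
  have h5 := congrArg τ h1
  simp only [map_pow, map_sub, map_mul, map_ofNat] at h5
  exact h5

theorem mapPt_some (h10 : (10 : K) ≠ 0) (τ : K →+* K) {x y : K}
    (h : (E4.baseChange K).toAffine.Nonsingular x y) :
    Pool.Agent.W97.KE.mapPt E4 τ (Affine.Point.some x y h) =
      Affine.Point.some (τ x) (τ y) (e4_map h10 τ h) := rfl

theorem equiv_gen (red : PE K →+ PE k) (h10K : (10 : K) ≠ 0) (h10k : (10 : k) ≠ 0)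
    (hr1 : ∀ (x y : K) (h : (E4.baseChange K).toAffine.Nonsingular x y), x ∉ v.A →
        red (Affine.Point.some x y h) = 0)
    (hr2 : ∀ (x y : K) (h : (E4.baseChange K).toAffine.Nonsingular x y), x ∈ v.A →
        ∃ g : (E4.baseChange k).toAffine.Nonsingular (v.r x) (v.r y),
          red (Affine.Point.some x y h) = Affine.Point.some _ _ g)
    (τ : K →+* K) (σ : k →+* k) (hτ : ∀ x, (τ x ∈ v.A ↔ x ∈ v.A) ∧ v.r (τ x) = σ (v.r x))
    (P : PE K) : red (Pool.Agent.W97.KE.mapPt E4 τ P) = Pool.Agent.W97.KE.mapPt E4 σ (red P) := by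
  rcases P with _ | ⟨x, y, h⟩
  · have e : (Affine.Point.zero : PE K) = 0 := rfl
    rw [e, map_zero, map_zero, map_zero]
  · rw [mapPt_some h10K]
    by_cases hx : x ∈ v.A
    · obtain ⟨g, hg⟩ := hr2 x y h hx
      obtain ⟨g', hg'⟩ := hr2 (τ x) (τ y) (e4_map h10K τ h) ((hτ x).1.2 hx)
      rw [hg, hg', mapPt_some h10k]
      simp only [Affine.Point.some.injEq]
      exact ⟨(hτ x).2, (hτ y).2⟩
    · rw [hr1 x y h hx, hr1 (τ x) (τ y) (e4_map h10K τ h) (fun hh => hx ((hτ x).1.1 hh)), map_zero]

end red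

theorem s_red : Pool.Agent.W97.KE.S_RED := by
  intro l _ hl v
  have hchar : CharP (AlgebraicClosure (ZMod l)) l := inferInstance
  have hne : ∀ n : ℕ, n ≠ 0 → n < 7 → (n : AlgebraicClosure (ZMod l)) ≠ 0 := by
    intro n hn hn7 h
    rw [CharP.cast_eq_zero_iff _ l] at h
    have := Nat.le_of_dvd (Nat.pos_of_ne_zero hn) h
    omega
  have h2k : (2 : AlgebraicClosure (ZMod l)) ≠ 0 := by exact_mod_cast hne 2 (by norm_num) (by norm_num)
  have h3k : (3 : AlgebraicClosure (ZMod l)) ≠ 0 := by exact_mod_cast hne 3 (by norm_num) (by norm_num)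
  have h5k : (5 : AlgebraicClosure (ZMod l)) ≠ 0 := by exact_mod_cast hne 5 (by norm_num) (by norm_num)
  have h10k : (10 : AlgebraicClosure (ZMod l)) ≠ 0 := by
    have : (10 : AlgebraicClosure (ZMod l)) = 2 * 5 := by norm_num
    rw [this]; exact mul_ne_zero h2k h5k
  have hDk : Disc (((-3348 : ℤ) : ℤ) : AlgebraicClosure (ZMod l)) (((-74547 : ℤ) : ℤ) : AlgebraicClosure (ZMod l)) := by
    unfold Disc
    have : (2 : AlgebraicClosure (ZMod l)) * (4 * (((-3348 : ℤ) : ℤ) : AlgebraicClosure (ZMod l)) ^ 3 +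
        27 * (((-74547 : ℤ) : ℤ) : AlgebraicClosure (ZMod l)) ^ 2) = -(2 * 3 ^ 12 * 5 ^ 3) := by
      push_cast
      norm_num
    rw [this, neg_ne_zero]
    exact mul_ne_zero (mul_ne_zero h2k (pow_ne_zero _ h3k)) (pow_ne_zero _ h5k)
  have hDK : Disc (((-3348 : ℤ) : ℤ) : AlgebraicClosure ℚ_[l]) (((-74547 : ℤ) : ℤ) : AlgebraicClosure ℚ_[l]) := by
    unfold Disc
    have hc : CharZero (AlgebraicClosure ℚ_[l]) := inferInstance
    push_cast
    norm_num
  obtain ⟨red, hr1, hr2, hr3⟩ := exists_redE v hDK hDk (by norm_num) (by norm_num) h3k h10k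
  refine ⟨red, ?_, ?_⟩
  · intro τ σ hτ P
    exact equiv_gen v red (by norm_num) h10k hr1 hr2
      (τ : AlgebraicClosure ℚ_[l] →+* AlgebraicClosure ℚ_[l])
      (σ : AlgebraicClosure (ZMod l) →+* AlgebraicClosure (ZMod l)) hτ P
  · intro p hp hpl P hP h0
    apply hr3 p ?_ P hP h0
    intro h
    rw [CharP.cast_eq_zero_iff _ l] at h
    have hl' : l.Prime := Fact.out
    exact hpl ((Nat.prime_dvd_prime_iff_eq hl' hp).1 h).symm

end Pool.Agent.W370.KE
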